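import Pool.Agent.Helper10.CR.Goals1

/-!
# Project CR, goal CR-DELOC: superdecomposable pure-injective modules over a localization
-/

universe u v w

namespace Pool.Agent.Helper61.CR

open Pool.Agent.Helper10.Width Pool.Agent.Helper72.Width Pool.Agent.Helper78.SD
open Pool.Agent.Helper10.CR

section loc

variable {R : Type u} [CommRing R] {A : Type u} [CommRing A] [Algebra R A]

theorem aux_smul {X' : Type u} [AddCommGroup X'] [Module R X'] [Module A X']
    [IsScalarTower R A X'] (p s1 s2 s3 : R) (B : A) (w : X') :
    (p * (s2 * (s1 * s3))) • B • w = (p * s2) • (s1 • B) • s3 • w := by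
  rw [Algebra.smul_def s1 B, ← algebraMap_smul A (p * (s2 * (s1 * s3))),
    ← algebraMap_smul A (p * s2), ← algebraMap_smul A s3 w, smul_smul, smul_smul, smul_smul]
  congr 1
  simp only [map_mul]
  ring

/-- Localization preserves pure embeddings. -/
theorem pure_loc (S : Submonoid R) [IsLocalization S A]
    {X Y : Type u} [AddCommGroup X] [Module R X] [AddCommGroup Y] [Module R Y]
    {X' Y' : Type u} [AddCommGroup X'] [Module R X'] [Module A X'] [IsScalarTower R A X']
    [AddCommGroup Y'] [Module R Y'] [Module A Y'] [IsScalarTower R A Y']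
    (f : X →ₗ[R] X') [IsLocalizedModule S f] (g : Y →ₗ[R] Y') [IsLocalizedModule S g]
    (i : X →ₗ[R] Y) (hi : IsPureEmb i) (i' : X' →ₗ[A] Y')
    (hi' : ∀ x, i' (f x) = g (i x)) : IsPureEmb i' := by
  classical
  have hsm : ∀ (r : R) (z : X'), i' (r • z) = r • i' z := by
    intro r z
    rw [← algebraMap_smul A, map_smul, algebraMap_smul]
  constructor
  · intro x y hxy
    have key : ∀ z, i' z = 0 → z = 0 := by
      intro z hz
      obtain ⟨⟨x, s⟩, rfl⟩ := IsLocalizedModule.mk'_surjective S f z
      rw [Function.uncurry_apply_pair] at hz ⊢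
      have h1 : f x = (s : R) • IsLocalizedModule.mk' f x s :=
        (IsLocalizedModule.mk'_cancel' f x s).symm
      have h2 : i' (f x) = 0 := by
        rw [h1, hsm, hz, smul_zero]
      rw [hi'] at h2
      rw [IsLocalizedModule.mk'_eq_zero]
      obtain ⟨t, ht⟩ := (IsLocalizedModule.eq_zero_iff S g).1 h2
      have h3 : i (t • x) = 0 := by
        rw [← ht]
        exact map_smul i (t : R) x
      have h4 : t • x = 0 := hi.1 (by rw [h3, map_zero])
      exact (IsLocalizedModule.eq_zero_iff S f).2 ⟨t, h4⟩
    have := key (x - y) (by rw [map_sub, hxy, sub_self])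
    exact sub_eq_zero.1 this
  · rintro n k b c ⟨y, hy⟩
    obtain ⟨s1, h1⟩ := IsLocalization.exist_integer_multiples_of_finite S
      (fun q : Fin n × Fin k => b q.1 q.2)
    obtain ⟨s2, h2⟩ := IsLocalizedModule.exist_integer_multiples_of_finite S f c
    obtain ⟨s3, h3⟩ := IsLocalizedModule.exist_integer_multiples_of_finite S g y
    choose β hβ using fun r j => h1 (r, j)
    choose γ hγ using h2
    choose η hη using h3
    have hβ' : ∀ r j, algebraMap R A (β r j) = (s1 : R) • b r j := hβ
    have hγ' : ∀ r, f (γ r) = (s2 : R) • c r := hγ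
    have hη' : ∀ j, g (η j) = (s3 : R) • y j := hη
    -- the equation in the localized module
    have e1 : ∀ r, g (∑ j, ((s2 : R) * β r j) • η j) = g (((s1 : R) * s3) • i (γ r)) := by
      intro r
      rw [map_sum, map_smul, ← hi', hγ', hsm, ← hy r, Finset.smul_sum, Finset.smul_sum]
      refine Finset.sum_congr rfl fun j _ => ?_
      rw [map_smul, hη', mul_smul, ← algebraMap_smul A (β r j), hβ']
      rw [smul_assoc, smul_comm (b r j) (s3 : R) (y j), mul_smul, smul_comm (s3 : R) (s2 : R),
        smul_comm (s1 : R) (s2 : R)]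
    choose t ht using fun r => (IsLocalizedModule.eq_iff_exists S g).1 (e1 r)
    have e2 : ∀ r, ∑ j, (((∏ r, t r : S) : R) * ((s2 : R) * β r j)) • η j =
        i ((((∏ r, t r : S) : R) * ((s1 : R) * s3)) • γ r) := by
      intro r
      have h : (∏ r, t r : S) = (∏ r' ∈ Finset.univ.erase r, t r') * t r := by
        rw [Finset.prod_erase_mul _ _ (Finset.mem_univ r)]
      rw [h, map_smul]
      push_cast
      have := congrArg (fun z => ((∏ r' ∈ Finset.univ.erase r, t r' : S) : R) • z) (ht r)
      simp only [Submonoid.smul_def, smul_smul, Finset.smul_sum] at this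
      push_cast at this
      simp only [mul_assoc] at this ⊢
      exact this
    obtain ⟨ξ, hξ⟩ := hi.2 n k _ _ ⟨η, e2⟩
    have hu3 : IsUnit (algebraMap R A s3) := IsLocalization.map_units A s3
    obtain ⟨u3, hu3'⟩ := hu3
    refine ⟨fun j => (↑u3⁻¹ : A) • f (ξ j), fun r => ?_⟩
    have hu : IsUnit (algebraMap R A (((∏ r, t r : S) : R) * ((s2 : R) * ((s1 : R) * s3)))) := by
      rw [map_mul, map_mul, map_mul]
      exact (IsLocalization.map_units A _).mul ((IsLocalization.map_units A _).mul
        ((IsLocalization.map_units A _).mul (IsLocalization.map_units A _)))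
    refine hu.smul_left_cancel.1 ?_
    rw [algebraMap_smul, algebraMap_smul]
    have h4 := congrArg f (hξ r)
    rw [map_sum, map_smul, hγ'] at h4
    have h5 : (((∏ r, t r : S) : R) * ((s2 : R) * ((s1 : R) * s3))) • c r =
        (((∏ r, t r : S) : R) * ((s1 : R) * s3)) • (s2 : R) • c r := by
      rw [smul_smul]
      congr 1
      ring
    rw [h5, ← h4, Finset.smul_sum]
    refine Finset.sum_congr rfl fun j _ => ?_
    rw [map_smul]
    have h6 : (s3 : R) • (↑u3⁻¹ : A) • f (ξ j) = f (ξ j) := by
      rw [← algebraMap_smul A (s3 : R), ← hu3', smul_smul, Units.mul_inv, one_smul]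
    have h7 : (((∏ r, t r : S) : R) * ((s2 : R) * ((s1 : R) * s3))) •
        b r j • (↑u3⁻¹ : A) • f (ξ j) =
        (((∏ r, t r : S) : R) * (s2 : R)) • ((s1 : R) • b r j) • ((s3 : R) •
          (↑u3⁻¹ : A) • f (ξ j)) := aux_smul _ _ _ _ _ _
    rw [h7, h6, ← hβ', algebraMap_smul, smul_smul]
    congr 1
    ring

/-- A submodule over the localization from one closed under the inverses. -/
def upSub (S : Submonoid R) [IsLocalization S A] {N : Type u} [AddCommGroup N] [Module R N]
    [Module A N] [IsScalarTower R A N] (B : Submodule R N)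
    (hB : ∀ s ∈ S, ∀ x : N, s • x ∈ B → x ∈ B) : Submodule A N where
  carrier := B
  zero_mem' := B.zero_mem
  add_mem' := B.add_mem
  smul_mem' := by
    intro a x hx
    obtain ⟨⟨r, s⟩, h⟩ := IsLocalization.surj S a
    refine hB s s.2 _ ?_
    have h1 : (s : R) • a • x = r • x := by
      rw [← algebraMap_smul A (s : R), smul_smul, mul_comm, h, algebraMap_smul]
    rw [h1]
    exact B.smul_mem r hx

theorem mem_of_smul (S : Submonoid R) [IsLocalization S A] {N : Type u} [AddCommGroup N]
    [Module R N] [Module A N] [IsScalarTower R A N] {B B' : Submodule R N} (h : IsCompl B B')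
    (s : R) (hs : s ∈ S) (x : N) (hx : s • x ∈ B) : x ∈ B := by
  obtain ⟨b, b', hb, hb', hbb⟩ := Submodule.codisjoint_iff_exists_add_eq.1 h.codisjoint x
  have h1 : s • b' ∈ B := by
    have : s • b' = s • x - s • b := by rw [← hbb, smul_add, add_sub_cancel_left]
    rw [this]
    exact B.sub_mem hx (B.smul_mem s hb)
  have h2 : s • b' = 0 := (Submodule.disjoint_def.1 h.disjoint) _ h1 (B'.smul_mem s hb')
  have hu : IsUnit (algebraMap R A s) := IsLocalization.map_units A ⟨s, hs⟩
  have h3 : b' = 0 := by
    rw [← algebraMap_smul A s] at h2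
    exact (hu.smul_eq_zero).1 h2
  rw [← hbb, h3, add_zero]
  exact hb

theorem superdec_loc (S : Submonoid R) [IsLocalization S A] {N : Type u} [AddCommGroup N]
    [Module R N] [Module A N] [IsScalarTower R A N] (hN : Superdecomposable A N) :
    Superdecomposable R N := by
  refine ⟨hN.1, ?_⟩
  intro B B' hBB hind
  let C := upSub (A := A) S B fun s hs x hx => mem_of_smul (A := A) S hBB s hs x hx
  let C' := upSub (A := A) S B' fun s hs x hx => mem_of_smul (A := A) S hBB.symm s hs x hx
  have hCC : IsCompl C C' := by
    constructor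
    · rw [Submodule.disjoint_def]
      intro x hx hx'
      exact (Submodule.disjoint_def.1 hBB.disjoint) x hx hx'
    · rw [Submodule.codisjoint_iff_exists_add_eq]
      intro x
      obtain ⟨b, b', hb, hb', hbb⟩ := Submodule.codisjoint_iff_exists_add_eq.1 hBB.codisjoint x
      exact ⟨b, b', hb, hb', hbb⟩
  refine hN.2 C C' hCC ⟨?_, ?_⟩
  · obtain ⟨x, y, hxy⟩ := hind.1
    exact ⟨⟨x.1, x.2⟩, ⟨y.1, y.2⟩, fun h => hxy (Subtype.ext (congrArg Subtype.val h))⟩
  · intro D D' hDD
    let down : Submodule A C → Submodule R B := fun D =>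
      { carrier := {x | (⟨x.1, x.2⟩ : C) ∈ D}
        zero_mem' := D.zero_mem
        add_mem' := fun {x y} hx hy => D.add_mem hx hy
        smul_mem' := fun r x hx => by
          have h1 : (algebraMap R A r) • (⟨x.1, x.2⟩ : C) ∈ D := D.smul_mem _ hx
          have h2 : (algebraMap R A r) • (⟨x.1, x.2⟩ : C) = (⟨(r • x).1, (r • x).2⟩ : C) :=
            Subtype.ext (algebraMap_smul A r x.1)
          have h3 : (⟨(r • x).1, (r • x).2⟩ : C) ∈ D := h2 ▸ h1
          exact h3 }
    have hE : IsCompl (down D) (down D') := by
      constructor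
      · rw [Submodule.disjoint_def]
        intro x hx hx'
        have := (Submodule.disjoint_def.1 hDD.disjoint) (⟨x.1, x.2⟩ : C) hx hx'
        exact Subtype.ext (congrArg Subtype.val this)
      · rw [Submodule.codisjoint_iff_exists_add_eq]
        intro x
        obtain ⟨b, b', hb, hb', hbb⟩ := Submodule.codisjoint_iff_exists_add_eq.1 hDD.codisjoint
          (⟨x.1, x.2⟩ : C)
        exact ⟨⟨b.1, b.2⟩, ⟨b'.1, b'.2⟩, hb, hb', Subtype.ext (congrArg Subtype.val hbb)⟩
    have hbot : ∀ D : Submodule A C, down D = ⊥ → D = ⊥ := by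
      intro D hD
      rw [Submodule.eq_bot_iff] at hD ⊢
      intro x hx
      have := hD ⟨x.1, x.2⟩ hx
      exact Subtype.ext (congrArg Subtype.val this)
    exact (hind.2 _ _ hE).imp (hbot D) (hbot D')

theorem pureInj_loc (S : Submonoid R) {N : Type u} [AddCommGroup N]
    [Module R N] [Module (Localization S) N] [IsScalarTower R (Localization S) N]
    (hN : PureInjective (Localization S) N) : PureInjective R N := by
  intro X Y _ _ _ _ i hi f
  let jX := LocalizedModule.mkLinearMap S X
  let jY := LocalizedModule.mkLinearMap S Y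
  have hu : ∀ x : S, IsUnit ((algebraMap R (Module.End R N)) x) := by
    intro s
    have h1 : IsUnit (algebraMap R (Localization S) s) := IsLocalization.map_units _ s
    have h2 := h1.map (algebraMap (Localization S) (Module.End (Localization S) N))
    rw [Module.End.isUnit_iff] at h2 ⊢
    have h3 : ∀ x : N, (algebraMap R (Module.End R N)) s x =
        (algebraMap (Localization S) (Module.End (Localization S) N))
          (algebraMap R (Localization S) s) x := by
      intro x
      rw [Module.algebraMap_end_apply, Module.algebraMap_end_apply, algebraMap_smul]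
    have h4 : ⇑((algebraMap R (Module.End R N)) s) =
        ⇑((algebraMap (Localization S) (Module.End (Localization S) N))
          (algebraMap R (Localization S) s)) := funext h3
    rw [h4]
    exact h2
  let i' : LocalizedModule S X →ₗ[Localization S] LocalizedModule S Y :=
    (IsLocalizedModule.map S jX jY i).extendScalarsOfIsLocalization S (Localization S)
  have hi' : IsPureEmb i' := by
    refine pure_loc S jX jY i hi i' ?_
    intro x
    exact IsLocalizedModule.map_apply S jX jY i x
  let f' : LocalizedModule S X →ₗ[Localization S] N :=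
    (IsLocalizedModule.lift S jX f hu).extendScalarsOfIsLocalization S (Localization S)
  obtain ⟨g, hg⟩ := hN _ _ i' hi' f'
  refine ⟨(g.restrictScalars R).comp jY, ?_⟩
  ext x
  have h1 := LinearMap.congr_fun hg (jX x)
  have h2 : i' (jX x) = jY (i x) := IsLocalizedModule.map_apply S jX jY i x
  have h3 : f' (jX x) = f x := IsLocalizedModule.lift_apply S jX f hu x
  show g (jY (i x)) = f x
  rw [← h2, ← h3]
  exact h1

end loc

theorem goalDelocalize : GoalDelocalize.{u} := by
  rintro R _ M _ ⟨N, -, hpi, hsd⟩
  let instR : Module R N := Module.compHom N (algebraMap R (Localization.AtPrime M))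
  have hT : IsScalarTower R (Localization.AtPrime M) N := ⟨fun r a x => by
    show (r • a) • x = algebraMap R (Localization.AtPrime M) r • a • x
    rw [Algebra.smul_def, mul_smul]⟩
  refine ⟨ModuleCat.of R N, fun p hp => (Set.notMem_empty p hp).elim, ?_, ?_⟩
  · exact pureInj_loc M.primeCompl (N := N) hpi
  · exact superdec_loc (A := Localization.AtPrime M) M.primeCompl (N := N) hsd

end Pool.Agent.Helper61.CR
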