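import Pool.Agent.Helper10.CR.Goals1
import Pool.Agent.Helper78.SD.Filter
import Pool.Agent.Helper78.SD.F1x
import Pool.Agent.Helper90.SD.F2
import Pool.Agent.Helper89.SD.F34
import Pool.Agent.Helper27.SD.ClassRefl
import Pool.Agent.Helper78.SD.Card
import Pool.Agent.Helper78.SD.Large

/-!
# Project CR, goal CR-ENG: the engine with one more piece of information
-/

universe u v w

namespace Pool.Agent.Helper61.CR

open Pool.Agent.Helper10.Width Pool.Agent.Helper72.Width Pool.Agent.Helper78.SD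
open Pool.Agent.Helper10.CR

/-- The filter of the engine. -/
theorem engineF (hFilter : GoalFilter.{u + 1, u}) (hClass : GoalClass.{u, u, w})
    (hCard : GoalCard.{u}) (hNo : GoalNoLarge.{u, w})
    {S : Type u} [Ring S] {S₀ : Subring S} {J : Type w} (B : CBasis S₀ J) [hJ : Nonempty J]
    (hcard : Cardinal.mk S₀ < Cardinal.lift.{u} covM) {T₀ : Set (PP S₀ × PP S₀)}
    {φ ψ : List Bool → ppLattice T₀} (hS : Scheme φ ψ) (e₀ : PP S₀)
    (he₀ : φ [] ≤ toL T₀ e₀) :
    ∃ p : Set (ppLattice (upT S₀ T₀)), IsFilt p ∧ (∃ x, x ∉ p) ∧ NoLarge p ∧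
      toL (upT S₀ T₀) (up S₀ e₀) ∈ p := by
  classical
  choose fo hfo using toL_surjective T₀
  obtain ⟨p, hp, hpφ, hpψ, hdec⟩ := hFilter (ppLattice T₀) φ ψ hS (fun n => NPP S₀ (n + 1))
    (NImp T₀) (ppComp T₀) (fun n E x => E.join (fo x)) (fun n E M => le_rfl)
    (by
      intro n E e he
      refine ⟨fun M => NPP.sol_le_join E (fo e) M.1, ?_⟩
      have h1 : ppComp T₀ n 0 (E.join (fo e)) = ppComp T₀ n 0 E ⊔ e := by
        have h2 : ppComp T₀ n 0 (E.join (fo e)) = toL T₀ ((E.comp 0).sup (fo e)) := by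
          refine Subtype.ext (funext fun M => ?_)
          show ((E.join (fo e)).comp 0).sol M.1 = ((E.comp 0).sup (fo e)).sol M.1
          rw [NPP.comp_join, PP.sol_sup]
        rw [h2, toL_sup, hfo]
        rfl
      rw [h1]
      exact sup_eq_right.2 he)
    (by simpa using hCard S₀ hcard)
  obtain ⟨M, hM, m, hm⟩ := exists_realization (T := T₀) (p := {θ | toL T₀ θ ∈ p})
    ⟨fun α hα β h => hp.up hα h, fun α hα β hβ => by
      show toL T₀ (α.inf β) ∈ p
      rw [toL_inf]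
      exact hp.inf hα hβ, by
      obtain ⟨x, hx⟩ := hp.nonempty
      exact ⟨fo x, by show toL T₀ (fo x) ∈ p; rwa [hfo]⟩⟩
  have hN : InClass T₀ (Bidual M) := inClass_bidual hM
  have ha : ∀ θ : PP S₀, ev (S := S₀) m ∈ θ.sol (Bidual M) ↔ toL T₀ θ ∈ p := fun θ =>
    ev_mem_sol.trans (hm θ)
  have hC : InClass (upT S₀ T₀) (Coind S₀ (Bidual M)) := hClass S S₀ J B T₀ (Bidual M) hN
  have hno := hNo S S₀ J B T₀ p hp ⟨_, hpψ⟩ hdec (Bidual M) hN (ev (S := S₀) m) ha hC
  refine ⟨_, ?_, ?_, hno, ?_⟩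
  · refine ⟨⟨toL _ (PP.top S), fun j => ?_⟩, ?_, ?_⟩
    · show _ ∈ (PP.top S).sol _
      rw [PP.sol_top]
      trivial
    · intro x y hx hxy j
      exact hxy _ (hx j)
    · intro x y hx hy j
      exact ⟨hx j, hy j⟩
  · refine ⟨toL _ (PP.bot S), fun h => ?_⟩
    obtain ⟨j⟩ := hJ
    have h1 : (B.pr j (ev (S := S₀) m) : Coind S₀ (Bidual M)) ∈
      (PP.bot S).sol (Coind S₀ (Bidual M)) := h j
    rw [PP.sol_bot, AddSubgroup.mem_bot] at h1
    have h2 : (B.pr j (ev (S := S₀) m) : Coind S₀ (Bidual M)) (B.el j) = 0 := by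
      rw [h1, Coind.zero_apply]
    rw [B.pr_apply, B.co_el_same, one_smul] at h2
    obtain ⟨θ, hθ⟩ := toL_surjective T₀ (ψ [])
    refine hpψ ?_
    rw [← hθ]
    refine (ha θ).1 ?_
    rw [h2]
    exact zero_mem _
  · have h1 : toL T₀ e₀ ∈ p := hp.up hpφ he₀
    have h2 := (ha e₀).2 h1
    intro j
    show (B.pr j (ev (S := S₀) m) : Coind S₀ (Bidual M)) ∈
      (up S₀ e₀).sol (Coind S₀ (Bidual M))
    rw [sol_up]
    exact PP.map_sol e₀ (B.pr j) h2

theorem goalEngine : GoalEngine.{u} := by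
  intro S _ hD T hT f g hS e he
  have hcov : Cardinal.aleph0 < Cardinal.lift.{u} covM := aleph0_lt_lift
  let A : Set S := (((⋃ s, coeffs (f s)) ∪ ⋃ s, coeffs (g s)) ∪
    ⋃ q : T, (coeffs q.1.1 ∪ coeffs q.1.2)) ∪ coeffs e
  have hA : Sm A := by
    refine (Cardinal.mk_union_le _ _).trans_lt ?_
    refine Cardinal.add_lt_of_lt hcov.le ?_
      (lt_of_le_of_lt (Cardinal.le_aleph0_iff_set_countable.2 (coeffs_countable e)) hcov)
    refine (Cardinal.mk_union_le _ _).trans_lt ?_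
    refine Cardinal.add_lt_of_lt hcov.le ?_ ?_
    · refine lt_of_le_of_lt (Cardinal.le_aleph0_iff_set_countable.2 ?_) hcov
      exact (Set.countable_iUnion fun s => coeffs_countable _).union
        (Set.countable_iUnion fun s => coeffs_countable _)
    · refine (Cardinal.mk_iUnion_le _).trans_lt ?_
      have h1 : (⨆ q : T, Cardinal.mk ↥(coeffs q.1.1 ∪ coeffs q.1.2)) ≤ Cardinal.aleph0 := by
        refine ciSup_le' fun q => ?_
        exact Cardinal.le_aleph0_iff_set_countable.2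
          ((coeffs_countable _).union (coeffs_countable _))
      refine (mul_le_mul_right h1 _).trans_lt ?_
      exact Cardinal.mul_lt_of_lt hcov.le hT hcov
  obtain ⟨S₀, hS₀, hAS, J, hJ, ⟨B⟩⟩ := hD A hA
  have hAS' := (Set.union_subset_iff.1 hAS)
  have hAS2 := (Set.union_subset_iff.1 hAS'.1)
  have hAS3 := (Set.union_subset_iff.1 hAS2.1)
  have hfc : ∀ s, coeffs (f s) ⊆ S₀ := fun s =>
    (Set.subset_iUnion (fun s => coeffs (f s)) s).trans hAS3.1
  have hgc : ∀ s, coeffs (g s) ⊆ S₀ := fun s =>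
    (Set.subset_iUnion (fun s => coeffs (g s)) s).trans hAS3.2
  have hTc : ∀ q ∈ T, coeffs q.1 ⊆ S₀ ∧ coeffs q.2 ⊆ S₀ := by
    intro q hq
    have h1 : coeffs q.1 ∪ coeffs q.2 ⊆ S₀ :=
      (Set.subset_iUnion (fun q : T => coeffs q.1.1 ∪ coeffs q.1.2) ⟨q, hq⟩).trans hAS2.2
    exact ⟨Set.subset_union_left.trans h1, Set.subset_union_right.trans h1⟩
  choose f₀ hf₀ using fun s => exists_down (hfc s)
  choose g₀ hg₀ using fun s => exists_down (hgc s)
  obtain ⟨e₀, he₀⟩ := exists_down hAS'.2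
  obtain ⟨T₀, rfl⟩ := exists_downT hTc
  have hS' := scheme_descends B Pool.Agent.Helper27.SD.goalReflect hS (f := f₀) (g := g₀)
    (fun s => by rw [hf₀]) (fun s => by rw [hg₀])
  have he' : toL T₀ (f₀ []) ≤ toL T₀ e₀ := by
    refine Pool.Agent.Helper27.SD.goalReflect S S₀ J B inferInstance T₀ _ _ ?_
    rw [hf₀, he₀]
    exact he
  have h := engineF goalFilter Pool.Agent.Helper27.SD.goalClass goalCard
    (goalNoLarge goalF1a goalF1b Pool.Agent.Helper90.SD.goalF2
      Pool.Agent.Helper89.SD.goalF3 Pool.Agent.Helper89.SD.goalF4) B hS₀ hS' e₀ he'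
  rwa [he₀] at h

end Pool.Agent.Helper61.CR
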