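import Pool.Agent.Helper88.CR.GoalsA

set_option autoImplicit false

/-!
# MP_69be96_nt: the trivial bound (packet CR-TV of helper88)
-/

namespace Pool.Agent.Helper61.CR

open Finset Filter Topology
open Pool.Agent.Helper88.CR
open scoped ArithmeticFunction

theorem step_bd {a t : ℝ} (ha : 0 < a) (ht : 0 < t) :
    (t + 1) ^ (-(1 + a)) ≤ (t ^ (-a) - (t + 1) ^ (-a)) / a := by
  have ht1 : 0 < t + 1 := by linarith
  rw [le_div_iff₀ ha]
  have e1 : (t + 1) ^ (-(1 + a)) = (t + 1) ^ (-a) * (t + 1)⁻¹ := by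
    rw [show -(1 + a) = -a + -1 by ring, Real.rpow_add ht1, Real.rpow_neg_one]
  have e2 : t ^ (-a) = (t + 1) ^ (-a) * (t / (t + 1)) ^ (-a) := by
    rw [← Real.mul_rpow ht1.le (by positivity)]
    congr 1
    field_simp
  have e3 : 1 + a * (t + 1)⁻¹ ≤ (t / (t + 1)) ^ (-a) := by
    have h1 : 0 < t / (t + 1) := by positivity
    rw [Real.rpow_def_of_pos h1]
    have h2 : Real.log (t / (t + 1)) ≤ t / (t + 1) - 1 := Real.log_le_sub_one_of_pos h1
    have h3 : t / (t + 1) - 1 = -(t + 1)⁻¹ := by field_simp; ring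
    rw [h3] at h2
    have h4 : a * (t + 1)⁻¹ ≤ Real.log (t / (t + 1)) * -a := by nlinarith
    calc 1 + a * (t + 1)⁻¹ ≤ Real.log (t / (t + 1)) * -a + 1 := by linarith
      _ ≤ _ := Real.add_one_le_exp _
  have hp : 0 < (t + 1) ^ (-a) := Real.rpow_pos_of_pos ht1 _
  rw [e1, e2]
  have h5 := mul_le_mul_of_nonneg_left e3 hp.le
  nlinarith

theorem zeta_bd {a : ℝ} (ha : 0 < a) : Summable (fun n : ℕ => (n : ℝ) ^ (-(1 + a))) ∧
    ∑' n : ℕ, (n : ℝ) ^ (-(1 + a)) ≤ 1 + 1 / a := by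
  have h0 : ∀ n : ℕ, 0 ≤ (n : ℝ) ^ (-(1 + a)) := fun n => Real.rpow_nonneg (Nat.cast_nonneg n) _
  have hs : Summable (fun n : ℕ => (n : ℝ) ^ (-(1 + a))) :=
    Real.summable_nat_rpow.2 (by linarith)
  refine ⟨hs, ?_⟩
  have key : ∀ N : ℕ, ∑ n ∈ range (N + 2), (n : ℝ) ^ (-(1 + a)) ≤
      1 + (1 - ((N : ℝ) + 1) ^ (-a)) / a := by
    intro N
    induction N with
    | zero =>
      rw [sum_range_succ, sum_range_succ, sum_range_zero]
      have : (-(1 + a)) ≠ 0 := by linarith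
      have e0 : ((0 : ℕ) : ℝ) ^ (-(1 + a)) = 0 := by rw [Nat.cast_zero, Real.zero_rpow this]
      have e1 : ((0 + 1 : ℕ) : ℝ) ^ (-(1 + a)) = 1 := by simp
      have e2 : (((0 : ℕ) : ℝ) + 1) ^ (-a) = 1 := by simp
      rw [e0, e1, e2]
      norm_num
    | succ N ih =>
      rw [sum_range_succ]
      have h1 := step_bd (t := (N : ℝ) + 1) ha (by positivity)
      have e : ((N + 2 : ℕ) : ℝ) = (N : ℝ) + 1 + 1 := by push_cast; ring
      rw [show N + 1 + 1 = N + 2 by ring, e]
      have e2 : ((N + 1 : ℕ) : ℝ) + 1 = (N : ℝ) + 1 + 1 := by push_cast; ring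
      rw [e2]
      calc _ ≤ (1 + (1 - ((N : ℝ) + 1) ^ (-a)) / a) +
            (((N : ℝ) + 1) ^ (-a) - ((N : ℝ) + 1 + 1) ^ (-a)) / a := add_le_add ih h1
        _ = _ := by ring
  refine Real.tsum_le_of_sum_range_le h0 fun N => ?_
  calc ∑ n ∈ range N, (n : ℝ) ^ (-(1 + a)) ≤ ∑ n ∈ range (N + 2), (n : ℝ) ^ (-(1 + a)) :=
        sum_le_sum_of_subset_of_nonneg (range_subset_range.2 (by omega)) fun n _ _ => h0 n
    _ ≤ 1 + (1 - ((N : ℝ) + 1) ^ (-a)) / a := key N
    _ ≤ 1 + 1 / a := by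
        have : 0 < ((N : ℝ) + 1) ^ (-a) := Real.rpow_pos_of_pos (by positivity) _
        gcongr
        linarith

theorem kx_ge {x : ℕ} (hx : 16 ≤ x) : 2 ≤ kx x := by
  have hl : Real.exp 1 < Real.log x := by
    have h1 : Real.log 16 ≤ Real.log x :=
      Real.log_le_log (by norm_num) (by exact_mod_cast hx)
    have h2 : Real.log 16 = 4 * Real.log 2 := by
      rw [show (16 : ℝ) = 2 ^ 4 by norm_num, Real.log_pow]
      push_cast
      ring
    have h3 := Real.log_two_gt_d9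
    have h4 := Real.exp_one_lt_d9
    linarith
  have h5 : 1 < Real.log (Real.log x) := by
    rw [Real.lt_log_iff_exp_lt (lt_trans (Real.exp_pos 1) hl)]
    exact hl
  unfold kx
  have h6 : 1 < ⌈Real.log (Real.log x)⌉₊ := by
    rw [Nat.lt_ceil]
    exact_mod_cast h5
  omega

theorem fx_nonneg (x n : ℕ) : 0 ≤ fx x n := by
  unfold fx
  have h1 : 0 ≤ Real.log n := Real.log_natCast_nonneg n
  have h2 : 0 ≤ ArithmeticFunction.vonMangoldt n := ArithmeticFunction.vonMangoldt_nonneg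
  positivity

theorem fx_le {x : ℕ} (hx : 16 ≤ x) (n : ℕ) :
    fx x n ≤ (kx x + 1) * (2 * Real.log x / kx x) ^ (kx x + 1) *
      (n : ℝ) ^ (-(1 + kx x / (2 * Real.log x))) := by
  have hk2 := kx_ge hx
  have hx1 : (1 : ℝ) < x := by
    have : (16 : ℝ) ≤ x := by exact_mod_cast hx
    linarith
  have hlx : 0 < Real.log x := Real.log_pos hx1
  set k := kx x with hk
  have hk0 : (0 : ℝ) < k := by exact_mod_cast (by omega : 0 < k)
  rcases Nat.eq_zero_or_pos n with rfl | hn
  · unfold fx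
    simp only [ArithmeticFunction.map_zero, zero_mul]
    positivity
  have hn0 : (0 : ℝ) < n := by exact_mod_cast hn
  have hln : 0 ≤ Real.log n := Real.log_natCast_nonneg n
  set y : ℝ := k / (2 * Real.log x) * Real.log n with hy
  have hy0 : 0 ≤ y := by positivity
  have h1 := Real.pow_div_factorial_le_exp y hy0 (k + 1)
  have h2 : Real.exp y = (n : ℝ) ^ (k / (2 * Real.log x)) := by
    rw [Real.rpow_def_of_pos hn0, hy, mul_comm]
  have h3 : Real.log n = (2 * Real.log x / k) * y := by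
    rw [hy]
    field_simp
  have hfac : ((k + 1).factorial : ℝ) = (k + 1) * (k.factorial : ℝ) := by
    rw [Nat.factorial_succ]
    push_cast
    ring
  have hf0 : (0 : ℝ) < k.factorial := by exact_mod_cast Nat.factorial_pos k
  have h4 : Real.log n ^ (k + 1) / (k.factorial : ℝ) ≤
      (k + 1) * (2 * Real.log x / k) ^ (k + 1) * (n : ℝ) ^ (k / (2 * Real.log x)) := by
    rw [← h2]
    rw [hfac, div_le_iff₀ (by positivity)] at h1
    rw [div_le_iff₀ hf0]
    calc Real.log n ^ (k + 1) = (2 * Real.log x / k) ^ (k + 1) * y ^ (k + 1) := by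
          rw [← mul_pow, ← h3]
      _ ≤ (2 * Real.log x / k) ^ (k + 1) * (Real.exp y * ((k + 1) * (k.factorial : ℝ))) := by
          apply mul_le_mul_of_nonneg_left h1 (by positivity)
      _ = _ := by ring
  have hΛ : ArithmeticFunction.vonMangoldt n ≤ Real.log n := ArithmeticFunction.vonMangoldt_le_log
  unfold fx
  rw [← hk]
  have hp : 0 ≤ (n : ℝ) ^ (-(1 + k / Real.log x)) := Real.rpow_nonneg hn0.le _
  calc ArithmeticFunction.vonMangoldt n * (Real.log n ^ k / (k.factorial : ℝ)) *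
        (n : ℝ) ^ (-(1 + k / Real.log x))
      ≤ Real.log n * (Real.log n ^ k / (k.factorial : ℝ)) *
        (n : ℝ) ^ (-(1 + k / Real.log x)) := by
          apply mul_le_mul_of_nonneg_right _ hp
          exact mul_le_mul_of_nonneg_right hΛ (by positivity)
    _ = Real.log n ^ (k + 1) / (k.factorial : ℝ) * (n : ℝ) ^ (-(1 + k / Real.log x)) := by
          rw [pow_succ]
          ring
    _ ≤ ((k + 1) * (2 * Real.log x / k) ^ (k + 1) * (n : ℝ) ^ (k / (2 * Real.log x))) *
          (n : ℝ) ^ (-(1 + k / Real.log x)) := mul_le_mul_of_nonneg_right h4 hp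
    _ = (k + 1) * (2 * Real.log x / k) ^ (k + 1) *
          ((n : ℝ) ^ (k / (2 * Real.log x)) * (n : ℝ) ^ (-(1 + k / Real.log x))) := by ring
    _ = _ := by
          rw [← Real.rpow_add hn0]
          congr 2
          field_simp
          ring

theorem tv : StmtTV := by
  intro x hx
  have hk2 := kx_ge hx
  have hx1 : (1 : ℝ) < x := by
    have : (16 : ℝ) ≤ x := by exact_mod_cast hx
    linarith
  have hlx : 0 < Real.log x := Real.log_pos hx1
  have hk0 : (0 : ℝ) < kx x := by exact_mod_cast (by omega : 0 < kx x)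
  obtain ⟨h1, h2⟩ := zeta_bd (a := kx x / (2 * Real.log x)) (by positivity)
  have h3 := h1.mul_left ((kx x + 1) * (2 * Real.log x / kx x) ^ (kx x + 1))
  have hs : Summable (fx x) := Summable.of_nonneg_of_le (fx_nonneg x) (fx_le hx) h3
  refine ⟨hs, ?_, ?_⟩
  · unfold fx
    simp
  · calc ∑' n, fx x n ≤ ∑' n : ℕ, (kx x + 1) * (2 * Real.log x / kx x) ^ (kx x + 1) *
          (n : ℝ) ^ (-(1 + kx x / (2 * Real.log x))) := hs.tsum_le_tsum (fx_le hx) h3
      _ = (kx x + 1) * (2 * Real.log x / kx x) ^ (kx x + 1) *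
          ∑' n : ℕ, (n : ℝ) ^ (-(1 + kx x / (2 * Real.log x))) := tsum_mul_left
      _ ≤ (kx x + 1) * (2 * Real.log x / kx x) ^ (kx x + 1) *
          (1 + 1 / (kx x / (2 * Real.log x))) := by
            apply mul_le_mul_of_nonneg_left h2 (by positivity)
      _ = _ := by
            rw [one_div_div]

end Pool.Agent.Helper61.CR
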