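import Pool.Agent.Helper61.CR.MT

set_option autoImplicit false

/-!
# MP_69be96_nt: the copies of the tent (packet CR-CY of helper88)
-/

namespace Pool.Agent.Helper61.CR

open Finset Filter Topology
open Pool.Agent.Helper88.CR
open scoped ArithmeticFunction Classical

theorem kx_loglog {x : ℕ} : Real.log (Real.log x) ≤ kx x := Nat.le_ceil _

theorem exp_kx_ge {x : ℕ} (hx : 16 ≤ x) : Real.log x ≤ Real.exp (kx x) := by
  have hx1 : (1 : ℝ) < x := by
    have : (16 : ℝ) ≤ x := by exact_mod_cast hx
    linarith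
  have hlx : 0 < Real.log x := Real.log_pos hx1
  calc Real.log x = Real.exp (Real.log (Real.log x)) := (Real.exp_log hlx).symm
    _ ≤ _ := Real.exp_le_exp.2 kx_loglog

/-- The copies of the tent. -/
theorem pt_support {x n : ℕ} (hx : 16 ≤ x) (hn : x < n) (hp : pt x n ≠ 0) :
    ∃ m : ℕ, 1 ≤ m ∧ n < x ^ (1 + 4 * m) ∧ x ^ (1 + 4 * m) < 16 * n := by
  have hx1 : (1 : ℝ) < x := by
    have : (16 : ℝ) ≤ x := by exact_mod_cast hx
    linarith
  have hx0 : (0 : ℝ) < x := by linarith
  have hlx : 0 < Real.log x := Real.log_pos hx1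
  have hl4 : 0 < Real.log 4 := Real.log_pos (by norm_num)
  have hn0 : (0 : ℝ) < n := by
    have : 0 < n := by omega
    exact_mod_cast this
  set u : ℝ := Real.log (4 * n / x) / (4 * Real.log x) with hu
  set r : ℤ := round u with hr
  have h1 : |u - r| < Real.log 4 / (4 * Real.log x) := by
    by_contra h
    push Not at h
    apply hp
    unfold pt
    rw [← hu, ← hr]
    apply max_eq_left
    have : 1 ≤ |u - r| / (Real.log 4 / (4 * Real.log x)) := by
      rw [le_div_iff₀ (by positivity), one_mul]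
      exact h
    linarith
  rw [lt_div_iff₀ (by positivity)] at h1
  have h2 : |Real.log (4 * n / x) - 4 * r * Real.log x| < Real.log 4 := by
    have e : Real.log (4 * n / x) - 4 * r * Real.log x = (u - r) * (4 * Real.log x) := by
      rw [hu]
      field_simp
    rw [e, abs_mul, abs_of_pos (show 0 < 4 * Real.log x by positivity)]
    exact h1
  have hlog : Real.log (4 * n / x) = Real.log 4 + Real.log n - Real.log x := by
    rw [Real.log_div (by positivity) hx0.ne', Real.log_mul (by norm_num) hn0.ne']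
  rw [hlog, abs_lt] at h2
  have hnx : Real.log x < Real.log n := Real.log_lt_log hx0 (by exact_mod_cast hn)
  have hr1 : 1 ≤ r := by
    by_contra h
    push Not at h
    have h3 : (r : ℝ) ≤ 0 := by exact_mod_cast (by omega : r ≤ 0)
    nlinarith
  obtain ⟨m, hm⟩ := Int.eq_ofNat_of_zero_le (by omega : 0 ≤ r)
  have hrm : (r : ℝ) = m := by
    rw [hm]
    norm_cast
  rw [hrm] at h2
  refine ⟨m, by omega, ?_, ?_⟩
  · have h3 : Real.log n < Real.log ((x : ℝ) ^ (1 + 4 * m)) := by
      rw [Real.log_pow]
      push_cast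
      linarith
    have h4 := (Real.log_lt_log_iff hn0 (by positivity)).1 h3
    exact_mod_cast h4
  · have h3 : Real.log ((x : ℝ) ^ (1 + 4 * m)) < Real.log (16 * n) := by
      rw [Real.log_pow, Real.log_mul (by norm_num) hn0.ne']
      have h16 : Real.log 16 = 2 * Real.log 4 := by
        rw [show (16 : ℝ) = 4 ^ 2 by norm_num, Real.log_pow]
        push_cast
        ring
      rw [h16]
      push_cast
      linarith
    have h4 := (Real.log_lt_log_iff (by positivity) (by positivity)).1 h3
    exact_mod_cast h4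

theorem card_modEq_le {q : ℕ} (hq : 1 ≤ q) (a b : ℕ) :
    (((range b).filter (fun n => n ≡ a [MOD q])).card : ℝ) ≤ b / q + 1 := by
  have h1 : ((range b).filter (fun n => n ≡ a [MOD q])).card = b.count (· ≡ a [MOD q]) := by
    rw [Nat.count_eq_card_filter_range]
  have h2 : b.count (· ≡ a [MOD q]) ≤ b / q + 1 := by
    rw [Nat.count_modEq_card _ (by omega)]
    split_ifs <;> omega
  have hq0 : (0 : ℝ) < q := by exact_mod_cast hq
  rw [h1]
  have h3 : ((b / q : ℕ) : ℝ) ≤ b / q := Nat.cast_div_le
  have h4 : ((b.count (· ≡ a [MOD q]) : ℕ) : ℝ) ≤ ((b / q + 1 : ℕ) : ℝ) := by exact_mod_cast h2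
  push_cast at h4
  linarith

theorem geo_bd {r : ℝ} (h0 : 0 ≤ r) (h1 : r ≤ 1 / 2) (N : ℕ) :
    ∑ m ∈ Icc 1 N, r ^ m ≤ 2 * r := by
  have key : ∑ m ∈ Icc 1 N, r ^ m ≤ 2 * r * (1 - (1 / 2) ^ N) := by
    induction N with
    | zero => simp
    | succ N ih =>
      rw [sum_Icc_succ_top (by omega)]
      have h2 : r ^ (N + 1) ≤ r * (1 / 2) ^ N := by
        rw [pow_succ, mul_comm]
        exact mul_le_mul_of_nonneg_left (pow_le_pow_left₀ h0 h1 N) h0
      have h3 : ((1 : ℝ) / 2) ^ (N + 1) = (1 / 2) ^ N / 2 := by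
        rw [pow_succ]
        ring
      rw [h3]
      nlinarith
  have h4 : (0 : ℝ) ≤ (1 / 2) ^ N := by positivity
  nlinarith

theorem cy : StmtCY := by
  intro ε hε
  obtain ⟨X2, hX2, hL⟩ := loglog_small (1 / 4) (by norm_num)
  refine ⟨⌈max X2 (Real.exp (1100 / ε))⌉₊, fun x q a hx hq hqx => ?_⟩
  have hxx : max X2 (Real.exp (1100 / ε)) ≤ x := (Nat.le_ceil _).trans (by exact_mod_cast hx)
  have hx2 : X2 ≤ x := (le_max_left _ _).trans hxx
  have hx3 : Real.exp (1100 / ε) ≤ x := (le_max_right _ _).trans hxx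
  have hx16r : (16 : ℝ) ≤ x := by linarith
  have hx16 : 16 ≤ x := by exact_mod_cast hx16r
  have hx0 : (0 : ℝ) < x := by linarith
  have hlx : 0 < Real.log x := Real.log_pos (by linarith)
  have hlxe : 1100 / ε ≤ Real.log x := by
    rw [Real.le_log_iff_exp_le hx0]
    exact hx3
  have hq0 : (0 : ℝ) < q := by exact_mod_cast hq
  have hqx1 : q ≤ x := le_trans (Nat.le_self_pow (by norm_num) q) hqx
  have hk := kx_le hx16
  have hk2 := kx_ge hx16
  have hL' := hL x hx2
  have hek := exp_kx_ge hx16
  set k := kx x with hkd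
  have hf0 : (0 : ℝ) < k.factorial := by exact_mod_cast Nat.factorial_pos k
  have h4k : 4 * (k : ℝ) ≤ Real.log x := by linarith
  set m0 : ℝ := Real.log x ^ k * Real.exp (-(k : ℝ)) / (k.factorial : ℝ) with hm0
  have hm0pos : 0 < m0 := by positivity
  set f : ℕ → ℝ := fun n => (if x < n ∧ n ≡ a [MOD q] then fx x n else 0) * pt x n with hf
  have hf_nonneg : ∀ n, 0 ≤ f n := by
    intro n
    apply mul_nonneg _ (pt_nonneg x n)
    split_ifs
    · exact fx_nonneg x n
    · exact le_refl _
  have hf_le : ∀ n, f n ≤ fx x n := by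
    intro n
    have h1 : (if x < n ∧ n ≡ a [MOD q] then fx x n else 0) ≤ fx x n := by
      split_ifs
      · exact le_refl _
      · exact fx_nonneg x n
    have h2 : 0 ≤ (if x < n ∧ n ≡ a [MOD q] then fx x n else 0) := by
      split_ifs
      · exact fx_nonneg x n
      · exact le_refl _
    calc f n ≤ (if x < n ∧ n ≡ a [MOD q] then fx x n else 0) * 1 :=
          mul_le_mul_of_nonneg_left (pt_le_one hx16 n) h2
      _ ≤ fx x n := by rw [mul_one]; exact h1
  have hs : Summable f := Summable.of_nonneg_of_le hf_nonneg hf_le (tv x hx16).1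
  refine ⟨hs, ?_⟩
  set F : ℕ → ℝ := fun m => ((1 + 4 * (m : ℝ)) * Real.log x) ^ (k + 1) / (k.factorial : ℝ) *
    (32 / (x : ℝ) ^ (1 + 4 * m)) * Real.exp (-(k * (1 + 4 * (m : ℝ)))) with hF
  have hF0 : ∀ m, 0 ≤ F m := fun m => by positivity
  -- a bound for the terms
  have hterm : ∀ m n : ℕ, x < n → n < x ^ (1 + 4 * m) → x ^ (1 + 4 * m) < 16 * n →
      fx x n ≤ F m := by
    intro m n hxn h1 h2
    have hn0 : (0 : ℝ) < n := by
      have : 0 < n := by omega
      exact_mod_cast this
    have h1' : (n : ℝ) ≤ (x : ℝ) ^ (1 + 4 * m) := by exact_mod_cast h1.le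
    have h2' : (x : ℝ) ^ (1 + 4 * m) ≤ 16 * n := by exact_mod_cast h2.le
    have hln : Real.log n ≤ (1 + 4 * (m : ℝ)) * Real.log x := by
      have := Real.log_le_log hn0 h1'
      rw [Real.log_pow] at this
      push_cast at this
      exact this
    have hln0 : 0 ≤ Real.log n := Real.log_natCast_nonneg n
    have h16 : Real.log 16 = 4 * Real.log 2 := by
      rw [show (16 : ℝ) = 2 ^ 4 by norm_num, Real.log_pow]
      push_cast
      ring
    have hln2 : (1 + 4 * (m : ℝ)) * Real.log x ≤ 4 * Real.log 2 + Real.log n := by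
      have := Real.log_le_log (by positivity) h2'
      rw [Real.log_pow, Real.log_mul (by norm_num) hn0.ne', h16] at this
      push_cast at this
      exact this
    have hp : (n : ℝ) ^ (-(1 + k / Real.log x)) ≤
        (32 / (x : ℝ) ^ (1 + 4 * m)) * Real.exp (-(k * (1 + 4 * (m : ℝ)))) := by
      have e1 : (n : ℝ) ^ (-(1 + k / Real.log x)) =
          (n : ℝ)⁻¹ * (n : ℝ) ^ (-(k / Real.log x)) := by
        rw [show -(1 + k / Real.log x) = -1 + -(k / Real.log x) by ring, Real.rpow_add hn0,
          Real.rpow_neg_one]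
      have e2 : (n : ℝ)⁻¹ ≤ 16 / (x : ℝ) ^ (1 + 4 * m) := by
        rw [le_div_iff₀ (by positivity), inv_mul_eq_div, div_le_iff₀ hn0]
        exact h2'
      have e3 : (n : ℝ) ^ (-(k / Real.log x)) ≤ 2 * Real.exp (-(k * (1 + 4 * (m : ℝ)))) := by
        rw [Real.rpow_def_of_pos hn0]
        calc Real.exp (Real.log n * -(k / Real.log x))
            ≤ Real.exp (Real.log 2 + -(k * (1 + 4 * (m : ℝ)))) := by
              apply Real.exp_le_exp.2
              have g1 : Real.log n * (k / Real.log x) ≥
                  ((1 + 4 * (m : ℝ)) * Real.log x - 4 * Real.log 2) * (k / Real.log x) := by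
                apply mul_le_mul_of_nonneg_right _ (by positivity)
                linarith
              have g2 : ((1 + 4 * (m : ℝ)) * Real.log x - 4 * Real.log 2) * (k / Real.log x) =
                  k * (1 + 4 * (m : ℝ)) - Real.log 2 * (4 * k / Real.log x) := by
                field_simp
              have g3 : Real.log 2 * (4 * k / Real.log x) ≤ Real.log 2 * 1 := by
                apply mul_le_mul_of_nonneg_left _ (Real.log_nonneg (by norm_num))
                rw [div_le_one hlx]
                exact h4k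
              linarith
          _ = _ := by rw [Real.exp_add, Real.exp_log (by norm_num)]
      rw [e1]
      calc (n : ℝ)⁻¹ * (n : ℝ) ^ (-(k / Real.log x))
          ≤ (16 / (x : ℝ) ^ (1 + 4 * m)) * (2 * Real.exp (-(k * (1 + 4 * (m : ℝ))))) :=
            mul_le_mul e2 e3 (by positivity) (by positivity)
        _ = _ := by ring
    have hΛ : ArithmeticFunction.vonMangoldt n ≤ Real.log n :=
      ArithmeticFunction.vonMangoldt_le_log
    unfold fx
    rw [← hkd]
    calc ArithmeticFunction.vonMangoldt n * (Real.log n ^ k / (k.factorial : ℝ)) *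
          (n : ℝ) ^ (-(1 + k / Real.log x))
        ≤ (((1 + 4 * (m : ℝ)) * Real.log x) *
            (((1 + 4 * (m : ℝ)) * Real.log x) ^ k / (k.factorial : ℝ))) *
            ((32 / (x : ℝ) ^ (1 + 4 * m)) * Real.exp (-(k * (1 + 4 * (m : ℝ))))) := by
          apply mul_le_mul _ hp (by positivity) (by positivity)
          apply mul_le_mul (hΛ.trans hln) _ (by positivity) (by positivity)
          apply div_le_div_of_nonneg_right _ hf0.le
          exact pow_le_pow_left₀ hln0 hln k
      _ = F m := by
          rw [hF]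
          ring
  -- partial sums
  refine Real.tsum_le_of_sum_range_le hf_nonneg fun N => ?_
  set S : ℕ → ℕ → Prop := fun m n => n < x ^ (1 + 4 * m) ∧ n ≡ a [MOD q] with hS
  have hpoint : ∀ n ∈ range N, f n ≤ ∑ m ∈ Icc 1 N, if S m n then F m else 0 := by
    intro n hn
    rw [mem_range] at hn
    have hnn : ∀ m ∈ Icc 1 N, 0 ≤ (if S m n then F m else 0) := by
      intro m _
      split_ifs
      · exact hF0 m
      · exact le_refl _
    by_cases hfn : f n = 0
    · rw [hfn]
      exact sum_nonneg hnn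
    · have h1 : (x < n ∧ n ≡ a [MOD q]) ∧ pt x n ≠ 0 := by
        constructor
        · by_contra h
          apply hfn
          rw [hf]
          simp only [if_neg h, zero_mul]
        · intro h
          apply hfn
          rw [hf]
          simp only [h, mul_zero]
      obtain ⟨m, hm1, hm2, hm3⟩ := pt_support hx16 h1.1.1 h1.2
      have hmN : m ≤ N := by
        have h2 : 16 * m < x ^ (1 + 4 * m) := by
          calc 16 * m < 16 * 2 ^ m := by
                have := Nat.lt_two_pow_self (n := m)
                omega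
            _ ≤ 16 * 16 ^ (4 * m) := by
                apply Nat.mul_le_mul_left
                calc 2 ^ m ≤ 16 ^ m := Nat.pow_le_pow_left (by norm_num) m
                  _ ≤ 16 ^ (4 * m) := Nat.pow_le_pow_right (by norm_num) (by omega)
            _ = 16 ^ (1 + 4 * m) := by rw [pow_add, pow_one]
            _ ≤ x ^ (1 + 4 * m) := Nat.pow_le_pow_left hx16 _
        omega
      calc f n ≤ fx x n := hf_le n
        _ ≤ F m := hterm m n h1.1.1 hm2 hm3
        _ = (if S m n then F m else 0) := by rw [if_pos ⟨hm2, h1.1.2⟩]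
        _ ≤ _ := single_le_sum hnn (mem_Icc.2 ⟨hm1, hmN⟩)
  have hcount : ∀ m, ∑ n ∈ range N, (if S m n then F m else 0) ≤
      F m * (2 * (x : ℝ) ^ (1 + 4 * m) / q) := by
    intro m
    rw [← sum_filter, sum_const, nsmul_eq_mul, mul_comm]
    apply mul_le_mul_of_nonneg_left _ (hF0 m)
    have h1 : ((range N).filter (fun n => S m n)).card ≤
        ((range (x ^ (1 + 4 * m))).filter (fun n => n ≡ a [MOD q])).card := by
      apply card_le_card
      intro n hn
      rw [mem_filter, mem_range] at hn ⊢
      exact hn.2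
    have h2 := card_modEq_le hq a (x ^ (1 + 4 * m))
    have h3 : (((range N).filter (fun n => S m n)).card : ℝ) ≤
        (((range (x ^ (1 + 4 * m))).filter (fun n => n ≡ a [MOD q])).card : ℝ) := by
      exact_mod_cast h1
    have h4 : (1 : ℝ) ≤ (x : ℝ) ^ (1 + 4 * m) / q := by
      rw [le_div_iff₀ hq0, one_mul]
      have h5 : q ≤ x ^ (1 + 4 * m) := hqx1.trans (Nat.le_self_pow (by omega) x)
      exact_mod_cast h5
    push_cast at h2
    calc _ ≤ _ := h3
      _ ≤ _ := h2
      _ ≤ _ := by
        rw [mul_div_assoc]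
        linarith
  -- the sum over `m`
  set r : ℝ := Real.exp (-(2 * ((k : ℝ) - 1))) with hr
  have hk2' : (2 : ℝ) ≤ k := by exact_mod_cast hk2
  have hr0 : 0 ≤ r := (Real.exp_pos _).le
  have hr1 : r ≤ 1 / 2 := by
    have h1 : r ≤ Real.exp (-1) := Real.exp_le_exp.2 (by linarith)
    have h2 := Real.exp_neg_one_lt_d9
    linarith
  have hm_bd : ∀ m : ℕ, 1 ≤ m → F m * (2 * (x : ℝ) ^ (1 + 4 * m) / q) ≤
      64 / q * m0 * Real.log x * r ^ m := by
    intro m hm
    have hm1 : (1 : ℝ) ≤ m := by exact_mod_cast hm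
    have h1 : 1 + 4 * (m : ℝ) ≤ Real.exp (2 * m) := by
      have := Real.quadratic_le_exp_of_nonneg (x := 2 * (m : ℝ)) (by positivity)
      nlinarith
    have h2 : (1 + 4 * (m : ℝ)) ^ (k + 1) * Real.exp (-(4 * m * k)) ≤ r ^ m := by
      calc (1 + 4 * (m : ℝ)) ^ (k + 1) * Real.exp (-(4 * m * k))
          ≤ (Real.exp (2 * m)) ^ (k + 1) * Real.exp (-(4 * m * k)) := by
            apply mul_le_mul_of_nonneg_right _ (Real.exp_pos _).le
            exact pow_le_pow_left₀ (by positivity) h1 _
        _ = r ^ m := by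
            rw [hr, ← Real.exp_nat_mul, ← Real.exp_nat_mul, ← Real.exp_add]
            congr 1
            push_cast
            ring
    have h3 : F m * (2 * (x : ℝ) ^ (1 + 4 * m) / q) = 64 / q * m0 * Real.log x *
        ((1 + 4 * (m : ℝ)) ^ (k + 1) * Real.exp (-(4 * m * k))) := by
      rw [hF, hm0]
      have e1 : Real.exp (-(k * (1 + 4 * (m : ℝ)))) =
          Real.exp (-(k : ℝ)) * Real.exp (-(4 * m * k)) := by
        rw [← Real.exp_add]
        congr 1
        ring
      dsimp only
      rw [e1, mul_pow, pow_succ (Real.log x) k]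
      have hxp : (x : ℝ) ^ (1 + 4 * m) ≠ 0 := by positivity
      field_simp
      norm_num
    rw [h3]
    apply mul_le_mul_of_nonneg_left h2 (by positivity)
  have hrl : Real.log x * r ≤ 8 / Real.log x := by
    rw [le_div_iff₀ hlx]
    have h1 : r = Real.exp 2 * (Real.exp k)⁻¹ ^ 2 := by
      rw [hr, ← Real.exp_neg, ← Real.exp_nat_mul, ← Real.exp_add]
      congr 1
      push_cast
      ring
    have h2 : Real.exp 2 ≤ 8 := by
      have h3 : Real.exp 2 = Real.exp 1 * Real.exp 1 := by
        rw [← Real.exp_add]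
        norm_num
      have h4 := Real.exp_one_lt_d9
      have h5 := Real.exp_pos 1
      rw [h3]
      nlinarith
    have h6 : Real.log x * (Real.exp k)⁻¹ ≤ 1 := by
      rw [← div_eq_mul_inv, div_le_one (Real.exp_pos _)]
      exact hek
    have h7 : 0 ≤ Real.log x * (Real.exp k)⁻¹ := by positivity
    rw [h1]
    calc Real.log x * (Real.exp 2 * (Real.exp k)⁻¹ ^ 2) * Real.log x
        = Real.exp 2 * (Real.log x * (Real.exp k)⁻¹) ^ 2 := by ring
      _ ≤ Real.exp 2 * 1 := by
          apply mul_le_mul_of_nonneg_left _ (Real.exp_pos _).le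
          nlinarith
      _ ≤ 8 := by linarith
  calc ∑ n ∈ range N, f n
      ≤ ∑ n ∈ range N, ∑ m ∈ Icc 1 N, (if S m n then F m else 0) := sum_le_sum hpoint
    _ = ∑ m ∈ Icc 1 N, ∑ n ∈ range N, (if S m n then F m else 0) := sum_comm
    _ ≤ ∑ m ∈ Icc 1 N, 64 / q * m0 * Real.log x * r ^ m :=
        sum_le_sum fun m hm => (hcount m).trans (hm_bd m (mem_Icc.1 hm).1)
    _ = 64 / q * m0 * Real.log x * ∑ m ∈ Icc 1 N, r ^ m := by rw [mul_sum]
    _ ≤ 64 / q * m0 * Real.log x * (2 * r) := by
        apply mul_le_mul_of_nonneg_left (geo_bd hr0 hr1 N) (by positivity)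
    _ = 128 / q * m0 * (Real.log x * r) := by ring
    _ ≤ 128 / q * m0 * (8 / Real.log x) := by
        apply mul_le_mul_of_nonneg_left hrl (by positivity)
    _ ≤ ε / q * m0 := by
        have h1 : 1024 / Real.log x ≤ ε := by
          rw [div_le_iff₀ hlx]
          rw [div_le_iff₀ hε] at hlxe
          nlinarith
        calc 128 / q * m0 * (8 / Real.log x) = (1024 / Real.log x) * (m0 / q) := by
              field_simp
              norm_num
          _ ≤ ε * (m0 / q) := mul_le_mul_of_nonneg_right h1 (by positivity)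
          _ = ε / q * m0 := by ring

end Pool.Agent.Helper61.CR
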