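import Pool.Agent.Helper61.CR.MT
import Pool.Agent.Helper5.CG.TF

set_option autoImplicit false

/-!
# MP_69be96_nt: Fourier expansion of the periodic tent (packet CR-FS of helper88)
-/

namespace Pool.Agent.Helper61.CR

open Finset Filter Topology
open Pool.Agent.Helper88.CR
open Pool.Agent.Helper88.CG (StmtTF)

/-- the Fourier coefficients -/
noncomputable def cf (h : ℝ) (ν : ℕ) : ℝ :=
  (1 - Real.cos (2 * Real.pi * ((ν : ℝ) + 1) * h)) / (h * Real.pi ^ 2 * ((ν : ℝ) + 1) ^ 2)

theorem cf_nonneg {h : ℝ} (hh : 0 < h) (ν : ℕ) : 0 ≤ cf h ν := by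
  unfold cf
  apply div_nonneg
  · linarith [Real.cos_le_one (2 * Real.pi * ((ν : ℝ) + 1) * h)]
  · positivity

theorem cf_le {h : ℝ} (hh : 0 < h) (ν : ℕ) :
    cf h ν ≤ 2 / (h * Real.pi ^ 2) * (1 / ((ν : ℝ) + 1) ^ 2) := by
  unfold cf
  rw [div_mul_div_comm, mul_one]
  apply div_le_div_of_nonneg_right _ (by positivity)
  linarith [Real.neg_one_le_cos (2 * Real.pi * ((ν : ℝ) + 1) * h)]

theorem cf_sum (hTF : StmtTF) {h : ℝ} (hh : 0 < h) (h2 : h ≤ 1 / 2) :
    HasSum (cf h) (1 - h) := by
  have h1 := hTF h 0 hh h2 (by norm_num)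
  simp only [mul_zero, Real.cos_zero, mul_one, abs_zero, zero_div, sub_zero] at h1
  rw [max_eq_right zero_le_one] at h1
  exact h1

/-- The tail of `∑ 1/m²`. -/
theorem tail_bd {N : ℝ} (hN : 0 < N) (M : ℕ) :
    ∑ m ∈ range M, (if N < (m : ℝ) + 1 then 1 / ((m : ℝ) + 1) ^ 2 else 0) ≤ 2 / N := by
  have key : ((M : ℝ) ≤ N → ∑ m ∈ range M,
      (if N < (m : ℝ) + 1 then 1 / ((m : ℝ) + 1) ^ 2 else 0) = 0) ∧
      (N < M → ∑ m ∈ range M,
        (if N < (m : ℝ) + 1 then 1 / ((m : ℝ) + 1) ^ 2 else 0) ≤ 2 / N - 1 / M) := by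
    induction M with
    | zero =>
      refine ⟨fun _ => by simp, fun h => ?_⟩
      rw [Nat.cast_zero] at h
      linarith
    | succ M ih =>
      rw [sum_range_succ]
      push_cast
      constructor
      · intro h
        rw [if_neg (not_lt.2 h), ih.1 (by linarith), add_zero]
      · intro h
        rw [if_pos h]
        have hM1 : (0 : ℝ) < (M : ℝ) + 1 := by positivity
        rcases le_or_gt (M : ℝ) N with h1 | h1
        · rw [ih.1 h1, zero_add]
          have h2 : 1 / ((M : ℝ) + 1) < 1 / N := one_div_lt_one_div_of_lt hN h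
          have h3 : 1 / ((M : ℝ) + 1) ^ 2 ≤ 1 / ((M : ℝ) + 1) := by
            apply one_div_le_one_div_of_le hM1
            have : (1 : ℝ) ≤ (M : ℝ) + 1 := by linarith [Nat.cast_nonneg (α := ℝ) M]
            nlinarith
          have h4 : 2 / N = 1 / N + 1 / N := by ring
          linarith
        · have h2 := ih.2 h1
          have hM0 : (0 : ℝ) < M := by linarith
          have h3 : 1 / ((M : ℝ) + 1) ^ 2 ≤ 1 / M - 1 / ((M : ℝ) + 1) := by
            rw [div_sub_div _ _ hM0.ne' hM1.ne', div_le_div_iff₀ (by positivity) (by positivity)]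
            nlinarith
          linarith
  rcases le_or_gt (M : ℝ) N with h1 | h1
  · rw [key.1 h1]
    positivity
  · have h2 := key.2 h1
    have hM0 : (0 : ℝ) < M := by linarith
    have : 0 ≤ 1 / (M : ℝ) := by positivity
    linarith

/-- The expansion of the periodic tent. -/
theorem pt_hasSum (hTF : StmtTF) {x : ℕ} (hx : 16 ≤ x) (n : ℕ) :
    HasSum (fun ν : ℕ => cf (Real.log 4 / (4 * Real.log x)) ν *
      Real.cos (2 * Real.pi * ((ν : ℝ) + 1) * (Real.log (4 * n / x) / (4 * Real.log x))))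
      (pt x n - Real.log 4 / (4 * Real.log x)) := by
  have hx1 : (1 : ℝ) < x := by
    have : (16 : ℝ) ≤ x := by exact_mod_cast hx
    linarith
  have hlx : 0 < Real.log x := Real.log_pos hx1
  have hl4 : 0 < Real.log 4 := Real.log_pos (by norm_num)
  have h4 := log4_lt hx
  set h := Real.log 4 / (4 * Real.log x) with hh
  have hh0 : 0 < h := by positivity
  have hh1 : h ≤ 1 / 2 := by
    rw [hh, div_le_iff₀ (by positivity)]
    linarith
  set u := Real.log (4 * n / x) / (4 * Real.log x) with hu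
  have h1 := hTF h (u - round u) hh0 hh1 (abs_sub_round u)
  have h2 : pt x n = max 0 (1 - |u - round u| / h) := rfl
  rw [h2]
  convert h1 using 1
  funext ν
  unfold cf
  congr 1
  have e : 2 * Real.pi * ((ν : ℝ) + 1) * (u - round u) =
      2 * Real.pi * ((ν : ℝ) + 1) * u - ((((ν : ℤ) + 1) * round u : ℤ) : ℝ) * (2 * Real.pi) := by
    push_cast
    ring
  rw [e, Real.cos_sub_int_mul_two_pi]

theorem norm_cpow_I {n : ℕ} (hn : n ≠ 0) (t : ℝ) : ‖(n : ℂ) ^ (Complex.I * t)‖ = 1 := by
  have hn0 : (0 : ℝ) < n := by exact_mod_cast Nat.pos_of_ne_zero hn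
  rw [show (n : ℂ) = ((n : ℝ) : ℂ) by norm_cast, Complex.norm_cpow_eq_rpow_re_of_pos hn0]
  simp

theorem summable_H {g : ℕ → ℝ} (hg : Summable g) (h0 : g 0 = 0) (t : ℝ) :
    Summable fun n => (g n : ℂ) * (n : ℂ) ^ (Complex.I * t) := by
  refine Summable.of_norm_bounded hg.abs fun n => ?_
  rw [norm_mul, Complex.norm_real, Real.norm_eq_abs]
  rcases Nat.eq_zero_or_pos n with rfl | hn
  · rw [h0]
    simp
  · rw [norm_cpow_I (by omega), mul_one]

/-- One frequency. -/
theorem freq_bd {x : ℕ} (hx : 16 ≤ x) {g : ℕ → ℝ} (hg : Summable g) (h0 : g 0 = 0) (ν : ℕ) :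
    |∑' n, g n * Real.cos (2 * Real.pi * ((ν : ℝ) + 1) *
      (Real.log (4 * n / x) / (4 * Real.log x)))| ≤
      ‖∑' n, (g n : ℂ) * (n : ℂ) ^
        (Complex.I * ((2 * Real.pi * ((ν : ℝ) + 1) / (4 * Real.log x) : ℝ) : ℂ))‖ := by
  have hx1 : (1 : ℝ) < x := by
    have : (16 : ℝ) ≤ x := by exact_mod_cast hx
    linarith
  have hx0 : (0 : ℝ) < x := by linarith
  have hlx : 0 < Real.log x := Real.log_pos hx1
  set t : ℝ := 2 * Real.pi * ((ν : ℝ) + 1) / (4 * Real.log x) with ht
  set w : ℂ := Complex.exp (-(Complex.I * t * Real.log (x / 4))) with hw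
  have hw1 : ‖w‖ = 1 := by
    rw [hw, Complex.norm_exp]
    simp
  have hterm : ∀ n, g n * Real.cos (2 * Real.pi * ((ν : ℝ) + 1) *
      (Real.log (4 * n / x) / (4 * Real.log x))) =
      ((g n : ℂ) * (n : ℂ) ^ (Complex.I * t) * w).re := by
    intro n
    rcases Nat.eq_zero_or_pos n with rfl | hn
    · rw [h0]
      simp
    · have hn0 : (0 : ℝ) < n := by exact_mod_cast hn
      have e1 : (n : ℂ) ^ (Complex.I * t) * w =
          Complex.exp (((2 * Real.pi * ((ν : ℝ) + 1) *
            (Real.log (4 * n / x) / (4 * Real.log x)) : ℝ) : ℂ) * Complex.I) := by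
        rw [Complex.cpow_def_of_ne_zero (by exact_mod_cast hn0.ne'), hw, ← Complex.exp_add]
        congr 1
        have e2 : Complex.log (n : ℂ) = ((Real.log n : ℝ) : ℂ) := by
          rw [← Complex.natCast_log]
        have e3 : Real.log (4 * n / x) = Real.log n - Real.log (x / 4) := by
          rw [Real.log_div (by positivity) hx0.ne', Real.log_mul (by norm_num) hn0.ne',
            Real.log_div hx0.ne' (by norm_num)]
          ring
        rw [e2, e3, ht]
        push_cast
        field_simp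
        ring
      rw [mul_assoc (g n : ℂ), e1, Complex.re_ofReal_mul, Complex.exp_ofReal_mul_I_re]
  have hs := summable_H hg h0 t
  have h1 : ∑' n, g n * Real.cos (2 * Real.pi * ((ν : ℝ) + 1) *
      (Real.log (4 * n / x) / (4 * Real.log x))) =
      ((∑' n, (g n : ℂ) * (n : ℂ) ^ (Complex.I * t)) * w).re := by
    rw [← tsum_mul_right, Complex.re_tsum (hs.mul_right w)]
    exact tsum_congr hterm
  rw [h1]
  calc |((∑' n, (g n : ℂ) * (n : ℂ) ^ (Complex.I * t)) * w).re|
      ≤ ‖(∑' n, (g n : ℂ) * (n : ℂ) ^ (Complex.I * t)) * w‖ := Complex.abs_re_le_norm _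
    _ = _ := by rw [norm_mul, hw1, mul_one]

theorem fs_of (hTF : StmtTF) : StmtFS := by
  refine ⟨8, by norm_num, fun x T E1 E2 g hx hT hg h0 hE1 hE2 => ?_⟩
  have hx1 : (1 : ℝ) < x := by
    have : (16 : ℝ) ≤ x := by exact_mod_cast hx
    linarith
  have hx0 : (0 : ℝ) < x := by linarith
  have hlx : 0 < Real.log x := Real.log_pos hx1
  have hl4 : 0 < Real.log 4 := Real.log_pos (by norm_num)
  have h4 := log4_lt hx
  have hT0 : 0 < T := by linarith
  set h := Real.log 4 / (4 * Real.log x) with hh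
  have hh0 : 0 < h := by positivity
  have hh1 : h ≤ 1 / 2 := by
    rw [hh, div_le_iff₀ (by positivity)]
    linarith
  have hE10 : 0 ≤ E1 := (norm_nonneg _).trans (hE1 0 (by rw [abs_zero]; linarith))
  have hE20 : 0 ≤ E2 := (norm_nonneg _).trans (hE2 0)
  set cs : ℕ → ℕ → ℝ := fun ν n => Real.cos (2 * Real.pi * ((ν : ℝ) + 1) *
      (Real.log (4 * n / x) / (4 * Real.log x))) with hcs
  set t : ℕ → ℝ := fun ν => 2 * Real.pi * ((ν : ℝ) + 1) / (4 * Real.log x) with ht
  have hcf := cf_sum hTF hh0 hh1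
  have hcfs : Summable (cf h) := hcf.summable
  -- the double series
  have hprod : Summable fun p : ℕ × ℕ => |g p.1| * cf h p.2 :=
    Summable.mul_of_nonneg hg.abs hcfs (fun n => abs_nonneg _) (fun ν => cf_nonneg hh0 ν)
  have hdbl : Summable (Function.uncurry fun n ν => g n * (cf h ν * cs ν n)) := by
    refine Summable.of_norm_bounded hprod fun p => ?_
    rw [Function.uncurry_apply_pair, Real.norm_eq_abs, abs_mul, abs_mul,
      abs_of_nonneg (cf_nonneg hh0 _)]
    apply mul_le_mul_of_nonneg_left _ (abs_nonneg _)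
    exact mul_le_of_le_one_right (cf_nonneg hh0 _) (Real.abs_cos_le_one _)
  have hptn : ∀ n, g n * pt x n = g n * h + ∑' ν, g n * (cf h ν * cs ν n) := by
    intro n
    have h1 := (pt_hasSum hTF hx n).tsum_eq
    rw [tsum_mul_left, h1]
    ring
  have hgh : Summable fun n => g n * h := hg.mul_right h
  have hin : Summable fun n => ∑' ν, g n * (cf h ν * cs ν n) := hdbl.prod
  have hmain : ∑' n, g n * pt x n = h * ∑' n, g n + ∑' ν, cf h ν * ∑' n, g n * cs ν n := by
    have hc : ∑' n, ∑' ν, g n * (cf h ν * cs ν n) = ∑' ν, ∑' n, g n * (cf h ν * cs ν n) :=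
      hdbl.tsum_comm.symm
    rw [tsum_congr hptn, hgh.tsum_add hin, hc, tsum_mul_right, mul_comm]
    congr 1
    apply tsum_congr
    intro ν
    rw [← tsum_mul_left]
    apply tsum_congr
    intro n
    ring
  -- the bound for the frequencies
  have hH : ∀ ν, |∑' n, g n * cs ν n| ≤ E1 + (if T < t ν then E2 else 0) := by
    intro ν
    have h1 := freq_bd hx hg h0 ν
    have ht0 : 0 ≤ t ν := by
      have := Real.pi_pos
      positivity
    split_ifs with hT1
    · have := hE2 (t ν)
      exact (h1.trans this).trans (by linarith)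
    · have := hE1 (t ν) (by rw [abs_of_nonneg ht0]; exact not_lt.1 hT1)
      rw [add_zero]
      exact h1.trans this
  have hH0 : |∑' n, g n| ≤ E1 := by
    have h1 := hE1 0 (by rw [abs_zero]; linarith)
    have h2 : ∑' n, (g n : ℂ) * (n : ℂ) ^ (Complex.I * ((0 : ℝ) : ℂ)) = ((∑' n, g n : ℝ) : ℂ) := by
      rw [Complex.ofReal_tsum]
      apply tsum_congr
      intro n
      simp
    rw [h2, Complex.norm_real, Real.norm_eq_abs] at h1
    exact h1
  -- the tail
  have htail_s : Summable fun ν => cf h ν * (if T < t ν then E2 else 0) := by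
    refine Summable.of_nonneg_of_le (fun ν => ?_) (fun ν => ?_) (hcfs.mul_right E2)
    · apply mul_nonneg (cf_nonneg hh0 ν)
      split_ifs
      · exact hE20
      · exact le_refl _
    · apply mul_le_mul_of_nonneg_left _ (cf_nonneg hh0 ν)
      split_ifs
      · exact le_refl _
      · exact hE20
  have hpi := Real.pi_pos
  have hpi3 := Real.pi_gt_three
  have htail : ∑' ν, cf h ν * (if T < t ν then E2 else 0) ≤ 8 * E2 / T := by
    set N : ℝ := T * (4 * Real.log x) / (2 * Real.pi) with hN
    have hN0 : 0 < N := by positivity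
    refine Real.tsum_le_of_sum_range_le (fun ν => ?_) fun M => ?_
    · apply mul_nonneg (cf_nonneg hh0 ν)
      split_ifs
      · exact hE20
      · exact le_refl _
    · have hiff : ∀ ν : ℕ, T < t ν ↔ N < (ν : ℝ) + 1 := by
        intro ν
        rw [hN, ht]
        dsimp only
        rw [lt_div_iff₀ (by positivity), div_lt_iff₀ (by positivity)]
        constructor <;> intro h' <;> linarith
      calc ∑ ν ∈ range M, cf h ν * (if T < t ν then E2 else 0)
          ≤ ∑ ν ∈ range M, (2 / (h * Real.pi ^ 2) * E2) *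
            (if N < (ν : ℝ) + 1 then 1 / ((ν : ℝ) + 1) ^ 2 else 0) := by
            apply sum_le_sum
            intro ν _
            by_cases h' : T < t ν
            · rw [if_pos h', if_pos ((hiff ν).1 h')]
              have := mul_le_mul_of_nonneg_right (cf_le hh0 ν) hE20
              calc cf h ν * E2 ≤ _ := this
                _ = _ := by ring
            · rw [if_neg h', if_neg (fun h'' => h' ((hiff ν).2 h''))]
              simp
        _ = (2 / (h * Real.pi ^ 2) * E2) * ∑ ν ∈ range M,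
            (if N < (ν : ℝ) + 1 then 1 / ((ν : ℝ) + 1) ^ 2 else 0) := by rw [mul_sum]
        _ ≤ (2 / (h * Real.pi ^ 2) * E2) * (2 / N) := by
            apply mul_le_mul_of_nonneg_left (tail_bd hN0 M) (by positivity)
        _ = 8 / (Real.pi * Real.log 4) * (E2 / T) := by
            rw [hN, hh]
            field_simp
            norm_num
            ring
        _ ≤ 8 * (E2 / T) := by
            apply mul_le_mul_of_nonneg_right _ (by positivity)
            rw [div_le_iff₀ (by positivity)]
            have hl41 : 1 ≤ Real.log 4 := by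
              have e : Real.log 4 = 2 * Real.log 2 := by
                rw [show (4 : ℝ) = 2 ^ 2 by norm_num, Real.log_pow]
                push_cast
                ring
              have := Real.log_two_gt_d9
              rw [e]
              linarith
            nlinarith
        _ = 8 * E2 / T := by ring
  have habs : |∑' ν, cf h ν * ∑' n, g n * cs ν n| ≤
      (1 - h) * E1 + ∑' ν, cf h ν * (if T < t ν then E2 else 0) := by
    have hb : ∀ ν, ‖cf h ν * ∑' n, g n * cs ν n‖ ≤
        cf h ν * E1 + cf h ν * (if T < t ν then E2 else 0) := by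
      intro ν
      rw [Real.norm_eq_abs, abs_mul, abs_of_nonneg (cf_nonneg hh0 ν), ← mul_add]
      exact mul_le_mul_of_nonneg_left (hH ν) (cf_nonneg hh0 ν)
    have hsum1 : Summable fun ν => cf h ν * E1 := hcfs.mul_right E1
    have h1 := tsum_of_norm_bounded (hsum1.add htail_s).hasSum hb
    rw [hsum1.tsum_add htail_s, tsum_mul_right, hcf.tsum_eq] at h1
    exact h1
  rw [hmain]
  calc |h * ∑' n, g n + ∑' ν, cf h ν * ∑' n, g n * cs ν n|
      ≤ |h * ∑' n, g n| + |∑' ν, cf h ν * ∑' n, g n * cs ν n| := abs_add_le _ _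
    _ ≤ h * E1 + ((1 - h) * E1 + ∑' ν, cf h ν * (if T < t ν then E2 else 0)) := by
        apply add_le_add _ habs
        rw [abs_mul, abs_of_pos hh0]
        exact mul_le_mul_of_nonneg_left hH0 hh0.le
    _ ≤ E1 + 8 * E2 / T := by linarith

theorem fs : StmtFS := fs_of Pool.Agent.Helper5.CG.tf

end Pool.Agent.Helper61.CR
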