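import Pool.Agent.Helper61.CR.TV
import Pool.Agent.Helper61.CG.A1

set_option autoImplicit false

/-!
# MP_69be96_nt: the main term (packet CR-MT of helper88)
-/

namespace Pool.Agent.Helper61.CR

open Finset Filter Topology
open Pool.Agent.Helper88.CR
open Pool.Agent.Helper88.CG (tw pw th)
open Pool.Agent.Helper61.CG (tw_nonneg tw_ge large)
open scoped ArithmeticFunction Classical

theorem pt_nonneg (x n : ℕ) : 0 ≤ pt x n := le_max_left _ _

theorem pt_le_one {x : ℕ} (hx : 16 ≤ x) (n : ℕ) : pt x n ≤ 1 := by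
  unfold pt
  have hx1 : (1 : ℝ) < x := by
    have : (16 : ℝ) ≤ x := by exact_mod_cast hx
    linarith
  have hlx : 0 < Real.log x := Real.log_pos hx1
  have hl4 : 0 < Real.log 4 := Real.log_pos (by norm_num)
  refine max_le zero_le_one ?_
  have : 0 ≤ |Real.log (4 * n / x) / (4 * Real.log x)
    - round (Real.log (4 * n / x) / (4 * Real.log x))| / (Real.log 4 / (4 * Real.log x)) := by
    positivity
  linarith

theorem log4_lt {x : ℕ} (hx : 16 ≤ x) : 2 * Real.log 4 ≤ Real.log x := by
  have h1 : Real.log 16 ≤ Real.log x := Real.log_le_log (by norm_num) (by exact_mod_cast hx)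
  have h2 : Real.log 16 = 2 * Real.log 4 := by
    rw [show (16 : ℝ) = 4 ^ 2 by norm_num, Real.log_pow]
    push_cast
    ring
  linarith

theorem pt_eq_tw {x n : ℕ} (hx : 16 ≤ x) (hn : 1 ≤ n) (hnx : n ≤ x) : pt x n = tw x n := by
  have hx1 : (1 : ℝ) < x := by
    have : (16 : ℝ) ≤ x := by exact_mod_cast hx
    linarith
  have hlx : 0 < Real.log x := Real.log_pos hx1
  have hl4 : 0 < Real.log 4 := Real.log_pos (by norm_num)
  have hn0 : (0 : ℝ) < n := by exact_mod_cast hn
  have hn1 : (1 : ℝ) ≤ n := by exact_mod_cast hn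
  have hnx' : (n : ℝ) ≤ x := by exact_mod_cast hnx
  have hx0 : (0 : ℝ) < x := by linarith
  have h4 := log4_lt hx
  have hlow : -Real.log x ≤ Real.log (4 * n / x) := by
    rw [← Real.log_inv]
    apply Real.log_le_log (by positivity)
    rw [le_div_iff₀ hx0, inv_mul_cancel₀ hx0.ne']
    linarith
  have hup : Real.log (4 * n / x) ≤ Real.log 4 := by
    apply Real.log_le_log (by positivity)
    rw [div_le_iff₀ hx0]
    linarith
  have hr : round (Real.log (4 * n / x) / (4 * Real.log x)) = 0 := by
    rw [round_eq_zero_iff]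
    constructor
    · rw [le_div_iff₀ (by positivity)]
      linarith
    · rw [div_lt_iff₀ (by positivity)]
      linarith
  unfold pt tw
  rw [hr, Int.cast_zero, sub_zero, abs_div, abs_of_pos (show 0 < 4 * Real.log x by positivity)]
  congr 2
  field_simp

theorem fxpt_nonneg (x z n : ℕ) : 0 ≤ (if rg z n then fx x n else 0) * pt x n := by
  apply mul_nonneg _ (pt_nonneg x n)
  split_ifs
  · exact fx_nonneg x n
  · exact le_refl _

theorem summable_rg {x : ℕ} (hx : 16 ≤ x) (z : ℕ) :
    Summable fun n => (if rg z n then fx x n else 0) * pt x n := by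
  refine Summable.of_nonneg_of_le (fxpt_nonneg x z) (fun n => ?_) (tv x hx).1
  have h1 : (if rg z n then fx x n else 0) ≤ fx x n := by
    split_ifs
    · exact le_refl _
    · exact fx_nonneg x n
  have h2 : 0 ≤ (if rg z n then fx x n else 0) := by
    split_ifs
    · exact fx_nonneg x n
    · exact le_refl _
  calc (if rg z n then fx x n else 0) * pt x n ≤ (if rg z n then fx x n else 0) * 1 :=
        mul_le_mul_of_nonneg_left (pt_le_one hx n) h2
    _ ≤ fx x n := by rw [mul_one]; exact h1

theorem kx_le {x : ℕ} (hx : 16 ≤ x) : (kx x : ℝ) ≤ Real.log (Real.log x) + 1 := by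
  have h2 := kx_ge hx
  have h0 : 0 ≤ Real.log (Real.log x) := by
    by_contra h
    push Not at h
    have : kx x = 0 := by
      unfold kx
      rw [Nat.ceil_eq_zero]
      exact h.le
    omega
  exact (Nat.ceil_lt_add_one h0).le

/-- Growth of `log log x`. -/
theorem loglog_small (ε : ℝ) (hε : 0 < ε) : ∃ X : ℝ, 16 ≤ X ∧ ∀ x : ℝ, X ≤ x →
    Real.log (Real.log x) + 1 ≤ ε * Real.log x := by
  have h := (Real.isLittleO_log_id_atTop.add
    (Asymptotics.isLittleO_const_id_atTop (1 : ℝ))).bound hε
  have h2 := Real.tendsto_log_atTop.eventually h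
  obtain ⟨X, hX⟩ := eventually_atTop.1 h2
  refine ⟨max X 16, le_max_right _ _, fun x hx => ?_⟩
  have h3 := hX x ((le_max_left _ _).trans hx)
  have h4 : 16 ≤ x := (le_max_right _ _).trans hx
  have hl : 0 ≤ Real.log x := Real.log_nonneg (by linarith)
  simp only [id] at h3
  rw [Real.norm_eq_abs, Real.norm_of_nonneg hl] at h3
  exact (le_abs_self _).trans h3

theorem theta_diff : ∃ X : ℝ, 2000 ≤ X ∧ ∀ x : ℕ, X ≤ x →
    (x : ℝ) / 10 ≤ ∑ p ∈ Ioc (x / 8) (x / 2) with p.Prime, Real.log p := by
  obtain ⟨X, hX2, hX⟩ := large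
  refine ⟨2 * X + 100, by linarith, fun x hx1 => ?_⟩
  have hx0 : (0 : ℝ) < x := by linarith
  set A := x / 8 with hA
  set B := x / 2 with hB
  have hA2 : (A : ℝ) ≤ x / 8 := by
    have : 8 * A ≤ x := by omega
    have h : 8 * (A : ℝ) ≤ x := by exact_mod_cast this
    linarith
  have hB1 : (x : ℝ) / 2 < B + 1 := by
    have : x < 2 * (B + 1) := by omega
    have h : (x : ℝ) < 2 * (B + 1) := by exact_mod_cast this
    linarith
  have hBX : X ≤ (B : ℝ) := by linarith
  obtain ⟨f1, f2, f3⟩ := hX B hBX
  have hθ : Chebyshev.theta B - Chebyshev.theta A =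
      ∑ p ∈ Ioc A B with p.Prime, Real.log p := by
    have hAB : A ≤ B := by omega
    unfold Chebyshev.theta
    rw [Nat.floor_natCast, Nat.floor_natCast, sub_eq_iff_eq_add]
    rw [← Finset.Ioc_union_Ioc_eq_Ioc (Nat.zero_le A) hAB, Finset.filter_union,
      Finset.sum_union]
    · ring
    · apply Finset.disjoint_filter_filter
      rw [Finset.disjoint_left]
      intro a ha hb
      rw [mem_Ioc] at ha hb
      omega
  rw [← hθ]
  have hl2a : 0.6931471803 < Real.log 2 := Real.log_two_gt_d9
  have hl2b : Real.log 2 < 0.6931471808 := Real.log_two_lt_d9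
  have hlow := Chebyshev.theta_ge' (x := (B : ℝ)) (by linarith)
  have hupp := Chebyshev.theta_le_log4_mul_x (x := (A : ℝ)) (by positivity)
  have hl4 : Real.log 4 = 2 * Real.log 2 := by
    rw [show (4 : ℝ) = 2 ^ 2 by norm_num, Real.log_pow]
    push_cast
    ring
  have hB2 : (B : ℝ) ≤ x / 2 := by
    have : 2 * B ≤ x := by omega
    have h : 2 * (B : ℝ) ≤ x := by exact_mod_cast this
    linarith
  have e1 : (B - 1 : ℝ) * 0.693 ≤ (B - 1) * Real.log 2 := by
    apply mul_le_mul_of_nonneg_left _ (by linarith)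
    linarith
  have e2 : Real.log 4 * (A : ℝ) ≤ 1.3863 * (x / 8) := by
    apply mul_le_mul _ hA2 (by positivity) (by norm_num)
    rw [hl4]
    linarith
  linarith

theorem mt : StmtMT := by
  obtain ⟨X1, hX1, hθ⟩ := theta_diff
  obtain ⟨X2, hX2, hL⟩ := loglog_small (1 / 6) (by norm_num)
  refine ⟨1 / 40, by norm_num, ⌈max X1 X2⌉₊, fun x z hx hz => ?_⟩
  have hxx : max X1 X2 ≤ x := (Nat.le_ceil _).trans (by exact_mod_cast hx)
  have hx1 : X1 ≤ x := (le_max_left _ _).trans hxx
  have hx2 : X2 ≤ x := (le_max_right _ _).trans hxx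
  have hx2000 : (2000 : ℝ) ≤ x := by linarith
  have hx2000' : 2000 ≤ x := by exact_mod_cast hx2000
  have hx16 : 16 ≤ x := by omega
  have hx0 : (0 : ℝ) < x := by linarith
  have hlx : 0 < Real.log x := Real.log_pos (by linarith)
  have hk := kx_le hx16
  have hk2 := kx_ge hx16
  have hL' := hL x hx2
  set k := kx x with hkd
  have hf0 : (0 : ℝ) < k.factorial := by exact_mod_cast Nat.factorial_pos k
  set m0 : ℝ := Real.log x ^ k * Real.exp (-(k : ℝ)) / (k.factorial : ℝ) with hm0
  have hm0pos : 0 < m0 := by positivity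
  -- lower bound for the terms
  have hl8 : Real.log 8 = 3 * Real.log 2 := by
    rw [show (8 : ℝ) = 2 ^ 3 by norm_num, Real.log_pow]
    push_cast
    ring
  have hl2b : Real.log 2 < 0.6931471808 := Real.log_two_lt_d9
  have hl2a : 0.6931471803 < Real.log 2 := Real.log_two_gt_d9
  have hterm : ∀ p ∈ (Ioc (x / 8) (x / 2)).filter Nat.Prime,
      Real.log p * (m0 / (4 * x)) ≤ (if rg z p then fx x p else 0) * pt x p := by
    intro p hp
    rw [mem_filter, mem_Ioc] at hp
    obtain ⟨⟨hp1, hp2⟩, hpp⟩ := hp
    have hp3 : (x : ℝ) / 8 < p := by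
      have : x < 8 * p := by omega
      have h : (x : ℝ) < 8 * p := by exact_mod_cast this
      linarith
    have hp4 : (p : ℝ) ≤ x / 2 := by
      have : 2 * p ≤ x := by omega
      have h : 2 * (p : ℝ) ≤ x := by exact_mod_cast this
      linarith
    have hp0 : (0 : ℝ) < p := by linarith
    have hzp : z < p := by
      by_contra h
      push Not at h
      have h1 : p ^ 2 ≤ z ^ 2 := Nat.pow_le_pow_left h 2
      have h2 : x < 8 * p := by omega
      nlinarith
    have hrg : rg z p := by
      refine ⟨hpp.ne_zero, fun q hq hqp => ?_⟩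
      rw [(Nat.prime_dvd_prime_iff_eq hq hpp).1 hqp]
      exact hzp
    rw [if_pos hrg]
    have hpt : 1 / 2 ≤ pt x p := by
      rw [pt_eq_tw hx16 hpp.one_lt.le (by omega)]
      exact tw_ge (by omega) hp3 hp4
    have hlp0 : 0 ≤ Real.log p := Real.log_natCast_nonneg p
    -- the power of the logarithm
    have hpow : Real.log x ^ k / 2 ≤ Real.log p ^ k := by
      have h1 : Real.log x - Real.log 8 ≤ Real.log p := by
        rw [← Real.log_div hx0.ne' (by norm_num)]
        exact Real.log_le_log (by positivity) hp3.le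
      have h2 : (0 : ℝ) ≤ 1 - Real.log 8 / Real.log x := by
        rw [sub_nonneg, div_le_one hlx]
        have : (2 : ℝ) ≤ k := by exact_mod_cast hk2
        rw [hl8]
        nlinarith
      have h3 : 1 / 2 ≤ (1 - Real.log 8 / Real.log x) ^ k := by
        have h4 := one_add_mul_le_pow (a := -(Real.log 8 / Real.log x)) (by linarith) k
        have h5 : (k : ℝ) * (Real.log 8 / Real.log x) ≤ 1 / 2 := by
          rw [← mul_div_assoc, div_le_iff₀ hlx, hl8]
          have : (k : ℝ) * (3 * Real.log 2) ≤ k * 3 := by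
            apply mul_le_mul_of_nonneg_left _ (Nat.cast_nonneg k)
            linarith
          linarith
        calc 1 / 2 ≤ 1 + (k : ℝ) * -(Real.log 8 / Real.log x) := by linarith
          _ ≤ _ := h4
          _ = _ := by ring
      calc Real.log x ^ k / 2 = Real.log x ^ k * (1 / 2) := by ring
        _ ≤ Real.log x ^ k * (1 - Real.log 8 / Real.log x) ^ k :=
            mul_le_mul_of_nonneg_left h3 (by positivity)
        _ = (Real.log x - Real.log 8) ^ k := by
            rw [← mul_pow]
            congr 1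
            field_simp
        _ ≤ Real.log p ^ k := by
            apply pow_le_pow_left₀ _ h1
            have := mul_nonneg hlx.le h2
            have e : Real.log x * (1 - Real.log 8 / Real.log x) = Real.log x - Real.log 8 := by
              field_simp
            linarith
    have hrp : Real.exp (-(k : ℝ)) * (2 / x) ≤ (p : ℝ) ^ (-(1 + k / Real.log x)) := by
      have e1 : (p : ℝ) ^ (-(1 + k / Real.log x)) = (p : ℝ) ^ (-(k / Real.log x)) * (p : ℝ)⁻¹ := by
        rw [show -(1 + k / Real.log x) = -(k / Real.log x) + -1 by ring, Real.rpow_add hp0,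
          Real.rpow_neg_one]
      have e2 : Real.exp (-(k : ℝ)) ≤ (p : ℝ) ^ (-(k / Real.log x)) := by
        rw [Real.rpow_def_of_pos hp0]
        apply Real.exp_le_exp.2
        have h1 : Real.log p ≤ Real.log x := Real.log_le_log hp0 (by linarith)
        have h2 : Real.log p * (k / Real.log x) ≤ k := by
          rw [mul_div_assoc', div_le_iff₀ hlx]
          nlinarith [Nat.cast_nonneg (α := ℝ) k]
        linarith
      have e3 : 2 / (x : ℝ) ≤ (p : ℝ)⁻¹ := by
        rw [div_le_iff₀ hx0, inv_mul_eq_div, le_div_iff₀ hp0]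
        linarith
      rw [e1]
      exact mul_le_mul e2 e3 (by positivity) (by positivity)
    have hfx : Real.log p * (m0 / x) ≤ fx x p := by
      unfold fx
      rw [← hkd, ArithmeticFunction.vonMangoldt_apply_prime hpp]
      calc Real.log p * (m0 / x) = Real.log p * (Real.log x ^ k / 2 / (k.factorial : ℝ)) *
            (Real.exp (-(k : ℝ)) * (2 / x)) := by
              rw [hm0]
              field_simp
        _ ≤ Real.log p * (Real.log p ^ k / (k.factorial : ℝ)) *
            (p : ℝ) ^ (-(1 + k / Real.log x)) := by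
              apply mul_le_mul _ hrp (by positivity) (by positivity)
              apply mul_le_mul_of_nonneg_left _ hlp0
              exact div_le_div_of_nonneg_right hpow hf0.le
    have hnn : 0 ≤ Real.log p * (m0 / x) := by positivity
    calc Real.log p * (m0 / (4 * x)) ≤ Real.log p * (m0 / x) * (1 / 2) := by
          have : Real.log p * (m0 / (4 * x)) = Real.log p * (m0 / x) * (1 / 4) := by
            field_simp
          rw [this]
          linarith
      _ ≤ fx x p * pt x p := mul_le_mul hfx hpt (by norm_num) (fx_nonneg x p)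
  have hsum : ∑ p ∈ (Ioc (x / 8) (x / 2)).filter Nat.Prime, Real.log p * (m0 / (4 * x)) ≤
      ∑' n, (if rg z n then fx x n else 0) * pt x n :=
    (sum_le_sum hterm).trans
      ((summable_rg hx16 z).sum_le_tsum _ fun n _ => fxpt_nonneg x z n)
  refine le_trans ?_ hsum
  rw [← sum_mul]
  have h1 := hθ x hx1
  calc 1 / 40 * m0 = (x : ℝ) / 10 * (m0 / (4 * x)) := by
        field_simp
        norm_num
    _ ≤ _ := mul_le_mul_of_nonneg_right h1 (by positivity)

end Pool.Agent.Helper61.CR
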